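import Pool.Agent.J4H16.LI.Stm4
import Pool.Agent.H476R2.PL.Trig

set_option autoImplicit false

/-! Project LI, (QB): Bernstein's inequality in the inner half of the interval. -/

namespace Pool.Agent.J4H51.LI

open Finset Real Pool.Agent.H476R2.PL

/-- translation invariance -/
theorem shift {m : ℕ} {f : ℝ → ℝ} (hf : f ∈ T m) (a : ℝ) : (fun θ => f (θ + a)) ∈ T m := by
  induction hf using Submodule.span_induction with
  | mem f hf =>
    obtain ⟨j, hj, rfl | rfl⟩ := hf
    · have h1 := (T m).smul_mem (cos (j * a)) (cos_mem (j := j) (m := m) hj)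
      have h2 := (T m).smul_mem (-sin (j * a)) (sin_mem (j := j) (m := m) hj)
      have h3 := (T m).add_mem h1 h2
      convert h3 using 1
      funext θ
      simp only [Pi.add_apply, Pi.smul_apply, smul_eq_mul]
      rw [mul_add, cos_add]
      ring
    · have h1 := (T m).smul_mem (cos (j * a)) (sin_mem (j := j) (m := m) hj)
      have h2 := (T m).smul_mem (sin (j * a)) (cos_mem (j := j) (m := m) hj)
      have h3 := (T m).add_mem h1 h2
      convert h3 using 1
      funext θ
      simp only [Pi.add_apply, Pi.smul_apply, smul_eq_mul]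
      rw [mul_add, sin_add]
      ring
  | zero => exact (T m).zero_mem
  | add f g _ _ hf hg => exact (T m).add_mem hf hg
  | smul c f _ hf => exact (T m).smul_mem c hf

/-- the full cosine sum vanishes -/
theorem full_zero {m k : ℕ} (hk : 0 < k) (hk2 : k < 2 * m) :
    ∑ j ∈ range (2 * m), cos (j * (k * (π / m))) = 0 := by
  have hm : (0 : ℝ) < m := by
    have : 0 < m := by omega
    exact_mod_cast this
  have h := alt_sum (k * (π / m) + π) (2 * m)
  have e0 : cos ((k * (π / m) + π) / 2) ≠ 0 := by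
    have e : ((k : ℝ) * (π / m) + π) / 2 = k * (π / (2 * m)) + π / 2 := by
      field_simp
    rw [e, cos_add_pi_div_two]
    exact (neg_lt_zero.2 (sin_pos' hk hk2)).ne
  have e1 : (((2 * m : ℕ) : ℝ) - 1 / 2) * (k * (π / m) + π) =
      -((k * (π / m) + π) / 2) + ((k + m : ℕ) : ℝ) * (2 * π) := by
    push_cast
    field_simp
    ring
  rw [e1, cos_add_nat_mul_two_pi, cos_neg, pow_mul] at h
  norm_num at h
  have h4 : ∑ j ∈ range (2 * m), (-1 : ℝ) ^ j * cos (j * (k * (π / m) + π)) = 0 := by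
    rcases h with h | h
    · exact absurd h e0
    · exact h
  rw [← h4]
  apply sum_congr rfl
  intro j _
  rw [mul_add, cos_add, cos_nat_mul_pi, sin_nat_mul_pi, mul_zero, sub_zero]
  have : ((-1 : ℝ) ^ j) * (-1 : ℝ) ^ j = 1 := by
    rw [← mul_pow]; norm_num
  linear_combination (-cos (j * (k * (π / m)))) * this

theorem S_symm {m j : ℕ} (hm : 0 < m) (hj : j ≤ 2 * m) : S m (2 * m - j) = S m j := by
  have hm' : (m : ℝ) ≠ 0 := by
    have : m ≠ 0 := by omega
    exact_mod_cast this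
  unfold S
  apply sum_congr rfl
  intro k _
  congr 1
  rw [Nat.cast_sub hj]
  have e : (((2 * m : ℕ) : ℝ) - j) * (k * (π / m)) = k * (2 * π) - j * (k * (π / m)) := by
    push_cast
    field_simp
  rw [e, cos_nat_mul_two_pi_sub]

theorem S_nonneg {m : ℕ} (hm : 0 < m) : 0 ≤ S m 0 := by
  have h1 : ∑ j ∈ range (2 * m), S m j = 0 := by
    unfold S
    rw [sum_comm]
    apply sum_eq_zero
    intro k hk
    rw [mem_Ico] at hk
    rw [← mul_sum, full_zero (by omega) hk.2, mul_zero]
  have h2 : ∀ j ∈ range (2 * m), S m j ≤ S m 0 := by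
    intro j hj
    rw [mem_range] at hj
    rcases le_total j m with h | h
    · rw [S_eq hm j h]
      nlinarith [sq_nonneg (j : ℝ)]
    · rw [← S_symm hm hj.le, S_eq hm (2 * m - j) (by omega)]
      nlinarith [sq_nonneg ((2 * m - j : ℕ) : ℝ)]
  have h3 := sum_le_sum h2
  rw [h1, sum_const, card_range, nsmul_eq_mul] at h3
  have hm' : (0 : ℝ) < ((2 * m : ℕ) : ℝ) := by exact_mod_cast (by omega : 0 < 2 * m)
  exact nonneg_of_mul_nonneg_right h3 hm'

/-- the second derivative is at most `m ^ 2 U` -/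
theorem second {m : ℕ} (hm : 0 < m) {f : ℝ → ℝ} (hf : f ∈ T m) {U : ℝ} (hU : ∀ θ, |f θ| ≤ U) :
    ∃ f1 f2 : ℝ → ℝ, (∀ θ, HasDerivAt f (f1 θ) θ) ∧ (∀ θ, HasDerivAt f1 (f2 θ) θ) ∧
      ∀ θ, |f2 θ| ≤ (m : ℝ) ^ 2 * U := by
  obtain ⟨f1, h1, -⟩ := quad hm hf
  have key : ∀ x : ℝ, ∃ y : ℝ, HasDerivAt f1 y x ∧ |y| ≤ (m : ℝ) ^ 2 * U := by
    intro x
    obtain ⟨g1, hg1, hg2⟩ := quad hm (shift hf x)
    have e : ∀ θ, g1 θ = f1 (θ + x) := by
      intro θ
      have := (h1 (θ + x)).comp_add_const θ x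
      exact (hg1 θ).unique this
    have e' : f1 = fun θ => g1 (θ + -x) := by
      funext θ
      rw [e]
      congr 1
      ring
    refine ⟨-S m 0 * f (0 + x) + ∑ k ∈ Ico 1 (2 * m), (-1 : ℝ) ^ (k + 1) * b m k *
        f (k * (π / m) + x), ?_, ?_⟩
    · rw [e']
      have h3 : HasDerivAt g1 (-S m 0 * f (0 + x) + ∑ k ∈ Ico 1 (2 * m), (-1 : ℝ) ^ (k + 1) *
        b m k * f (k * (π / m) + x)) (x + -x) := by
        rw [add_neg_cancel]
        exact hg2
      exact h3.comp_add_const x (-x)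
    · have h4 := S_sum hm
      have h5 := S_nonneg hm
      have h6 : |∑ k ∈ Ico 1 (2 * m), (-1 : ℝ) ^ (k + 1) * b m k *
        f (k * (π / m) + x)| ≤ ∑ k ∈ Ico 1 (2 * m), b m k * U := by
        refine (abs_sum_le_sum_abs _ _).trans (sum_le_sum fun k hk => ?_)
        rw [mem_Ico] at hk
        have hb := b_pos (m := m) (k := k) (by omega) hk.2
        rw [abs_mul, abs_mul, abs_pow, abs_neg, abs_one, one_pow, one_mul, abs_of_pos hb]
        exact mul_le_mul_of_nonneg_left (hU _) hb.le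
      refine (abs_add_le _ _).trans ?_
      rw [abs_mul, abs_neg, abs_of_nonneg h5]
      have h7 : S m 0 * |f (0 + x)| ≤ S m 0 * U :=
        mul_le_mul_of_nonneg_left (hU _) h5
      rw [← sum_mul] at h6
      rw [← h4, add_mul]
      exact add_le_add h7 h6
  choose f2 hf2 hf3 using key
  exact ⟨f1, f2, h1, hf2, hf3⟩

/-- Landau's inequality -/
theorem landau {f f1 f2 : ℝ → ℝ} {U K : ℝ} (h1 : ∀ θ, HasDerivAt f (f1 θ) θ)
    (h2 : ∀ θ, HasDerivAt f1 (f2 θ) θ) (hU : ∀ θ, |f θ| ≤ U) (hK : ∀ θ, |f2 θ| ≤ K) (x : ℝ)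
    {h : ℝ} (hh : 0 ≤ h) : 2 * h * f1 x ≤ 2 * U + K * h ^ 2 := by
  have hL : ∀ a b : ℝ, |f1 b - f1 a| ≤ K * |b - a| := by
    intro a b
    have := Convex.norm_image_sub_le_of_norm_deriv_le (f := f1) (C := K) (s := Set.univ)
      (x := a) (y := b) (fun z _ => (h2 z).differentiableAt)
      (fun z _ => by rw [(h2 z).deriv]; exact hK z) convex_univ (Set.mem_univ _) (Set.mem_univ _)
    simpa [Real.norm_eq_abs] using this
  let ψ : ℝ → ℝ := fun t => K * t ^ 2 + (f (x + t) - f (x - t) - 2 * t * f1 x)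
  have hψ : ∀ t, HasDerivAt ψ (K * (2 * t) + (f1 (x + t) + f1 (x - t) - 2 * f1 x)) t := by
    intro t
    have a1 : HasDerivAt (fun t : ℝ => K * t ^ 2) (K * (2 * t)) t := by
      simpa using (hasDerivAt_pow 2 t).const_mul K
    have a2 : HasDerivAt (fun t : ℝ => f (x + t)) (f1 (x + t)) t := (h1 (x + t)).comp_const_add x t
    have a3 : HasDerivAt (fun t : ℝ => f (x - t)) (-f1 (x - t)) t := (h1 (x - t)).comp_const_sub x t
    have a4 : HasDerivAt (fun t : ℝ => 2 * t * f1 x) (2 * f1 x) t := by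
      have := ((hasDerivAt_id t).const_mul 2).mul_const (f1 x)
      simpa using this
    refine (a1.add ((a2.sub a3).sub a4)).congr_deriv ?_
    ring
  have hmono : MonotoneOn ψ (Set.Ici 0) := by
    apply monotoneOn_of_deriv_nonneg (convex_Ici 0)
    · exact fun t _ => (hψ t).continuousAt.continuousWithinAt
    · exact fun t _ => (hψ t).differentiableAt.differentiableWithinAt
    · intro t ht
      rw [interior_Ici, Set.mem_Ioi] at ht
      rw [(hψ t).deriv]
      have b1 := abs_le.1 (hL x (x + t))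
      have b2 := abs_le.1 (hL x (x - t))
      have c1 : |x + t - x| = t := by rw [add_sub_cancel_left]; exact abs_of_pos ht
      have c2 : |x - t - x| = t := by
        rw [sub_sub_cancel_left, abs_neg]; exact abs_of_pos ht
      rw [c1] at b1
      rw [c2] at b2
      linarith [b1.1, b2.1]
  have h0 : ψ 0 = 0 := by simp [ψ]
  have h3 := hmono (Set.mem_Ici.2 le_rfl) (Set.mem_Ici.2 hh) hh
  rw [h0] at h3
  have h4 : 0 ≤ K * h ^ 2 + (f (x + h) - f (x - h) - 2 * h * f1 x) := h3
  have h5 := abs_le.1 (hU (x + h))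
  have h6 := abs_le.1 (hU (x - h))
  linarith [h5.2, h6.1]

/-- Bernstein's inequality with the constant `√2` -/
theorem bern {m : ℕ} (hm : 0 < m) {f f1 : ℝ → ℝ} (hf : f ∈ T m) {U : ℝ} (hU : ∀ θ, |f θ| ≤ U)
    (h1 : ∀ θ, HasDerivAt f (f1 θ) θ) (x : ℝ) : |f1 x| ≤ √2 * m * U := by
  have hm' : (0 : ℝ) < m := by exact_mod_cast hm
  have one : ∀ (g g1 : ℝ → ℝ), g ∈ T m → (∀ θ, |g θ| ≤ U) → (∀ θ, HasDerivAt g (g1 θ) θ) →
      g1 x ≤ √2 * m * U := by
    intro g g1 hg hgU hg1
    obtain ⟨k1, k2, hk1, hk2, hk3⟩ := second hm hg hgU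
    have e : g1 = k1 := by
      funext θ
      exact (hg1 θ).unique (hk1 θ)
    subst e
    have hs : (0 : ℝ) < √2 := by positivity
    have hs2 : √2 * √2 = 2 := Real.mul_self_sqrt (by norm_num)
    have h5 := landau hk1 hk2 hgU hk3 x (h := √2 / m) (by positivity)
    have e1 : (m : ℝ) ^ 2 * U * (√2 / m) ^ 2 = 2 * U := by
      rw [div_pow]
      field_simp
      rw [pow_two, hs2]
    rw [e1] at h5
    have h6 : 2 * (√2 / m) * g1 x = (2 * √2 * g1 x) / m := by ring
    rw [h6, div_le_iff₀ hm'] at h5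
    have h7 : √2 * g1 x ≤ √2 * (√2 * m * U) := by
      have : √2 * (√2 * m * U) = 2 * m * U := by
        rw [← mul_assoc, ← mul_assoc, hs2]
      rw [this]
      nlinarith
    exact le_of_mul_le_mul_left h7 hs
  rw [abs_le]
  constructor
  · have := one (fun θ => -f θ) (fun θ => -f1 θ) ((T m).neg_mem hf)
      (fun θ => by rw [abs_neg]; exact hU θ) (fun θ => (h1 θ).neg)
    linarith
  · exact one f f1 hf hU h1

theorem cos_pow_mem (i : ℕ) : (fun θ : ℝ => cos θ ^ i) ∈ T i := by
  induction i with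
  | zero =>
    have := cos_mem (j := 0) (m := 0) le_rfl
    convert this using 2 with θ
    simp
  | succ i ih =>
    have := mul_cos_mem ih
    convert this using 2 with θ
    rw [pow_succ]

theorem poly_mem (n : ℕ) (q : Polynomial ℝ) (hq : q.natDegree ≤ n) (R : ℝ) :
    (fun θ : ℝ => q.eval (R * cos θ)) ∈ T n := by
  have h : (fun θ : ℝ => q.eval (R * cos θ)) =
      ∑ i ∈ range (n + 1), (q.coeff i * R ^ i) • (fun θ : ℝ => cos θ ^ i) := by
    funext θ
    rw [Polynomial.eval_eq_sum_range' (n := n + 1) (by omega), Finset.sum_apply]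
    apply sum_congr rfl
    intro i _
    simp only [Pi.smul_apply, smul_eq_mul]
    rw [mul_pow]
    ring
  rw [h]
  apply (T n).sum_mem
  intro i hi
  rw [mem_range] at hi
  exact (T n).smul_mem _ (T_mono (by omega) (cos_pow_mem i))

theorem t_QB : Pool.Agent.J4H16.LI.S_QB := by
  intro n q hq M R hR hM hb x hx
  rcases Nat.eq_zero_or_pos n with rfl | hn
  · have : q.natDegree = 0 := by omega
    rw [Polynomial.eq_C_of_natDegree_eq_zero this]
    simp
  · have hxR : |x / R| ≤ 1 / 2 := by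
      rw [abs_div, abs_of_pos hR, div_le_iff₀ hR]
      linarith
    have hx1 := abs_le.1 hxR
    have hf := poly_mem n q hq R
    have hU : ∀ θ : ℝ, |(fun θ : ℝ => q.eval (R * cos θ)) θ| ≤ M := by
      intro θ
      apply hb
      rw [abs_mul, abs_of_pos hR]
      exact mul_le_of_le_one_right hR.le (abs_cos_le_one θ)
    have h1 : ∀ θ : ℝ, HasDerivAt (fun θ : ℝ => q.eval (R * cos θ))
        (q.derivative.eval (R * cos θ) * (R * (-sin θ))) θ := by
      intro θ
      exact (q.hasDerivAt (R * cos θ)).comp θ ((hasDerivAt_cos θ).const_mul R)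
    have h2 := bern hn hf hU h1 (arccos (x / R))
    have e1 : R * cos (arccos (x / R)) = x := by
      rw [cos_arccos (by linarith [hx1.1]) (by linarith [hx1.2])]
      field_simp
    rw [e1, abs_mul, abs_mul, abs_neg, abs_of_pos hR, sin_arccos] at h2
    have hsq : (x / R) ^ 2 ≤ 1 / 4 := by
      rw [← sq_abs]
      nlinarith [abs_nonneg (x / R)]
    have h3 : √3 / 2 ≤ √(1 - (x / R) ^ 2) := by
      apply Real.le_sqrt_of_sq_le
      rw [div_pow, Real.sq_sqrt (by norm_num)]
      linarith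
    have h4 : |√(1 - (x / R) ^ 2)| = √(1 - (x / R) ^ 2) := abs_of_nonneg (Real.sqrt_nonneg _)
    rw [h4] at h2
    have h5 : |q.derivative.eval x| * (R * (√3 / 2)) ≤ √2 * n * M :=
      (mul_le_mul_of_nonneg_left (mul_le_mul_of_nonneg_left h3 hR.le) (abs_nonneg _)).trans h2
    have h6 : √2 ≤ √3 := Real.sqrt_le_sqrt (by norm_num)
    have h7 : (0 : ℝ) < √3 := by positivity
    rw [le_div_iff₀ hR]
    have h8 : √3 * (|q.derivative.eval x| * R) ≤ √3 * (2 * n * M) := by
      have : √2 * (n * M) ≤ √3 * (n * M) := mul_le_mul_of_nonneg_right h6 (by positivity)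
      nlinarith
    exact le_of_mul_le_mul_left h8 h7

end Pool.Agent.J4H51.LI
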